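import Pool.Agent.TH19.ZD.Dyn

/-!
Products of maps in affine charts have dense orbits.
-/

set_option autoImplicit false

open scoped NNReal

namespace Pool.Agent.TH19.ZD

theorem eval_mem {K : IntermediateField ℚ Qb} {g : Polynomial Qb} (hg : ∀ x ∈ g.coeffs, x ∈ K)
    {x : Qb} (hx : x ∈ K) : g.eval x ∈ K := by
  rw [Polynomial.eval_eq_sum_range]
  refine sum_mem fun i _ => mul_mem ?_ (pow_mem hx i)
  by_cases h : g.coeff i = 0
  · rw [h]; exact zero_mem K
  · exact hg _ (Polynomial.coeff_mem_coeffs h)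

theorem exists_primes (m N : ℕ) : ∃ p : Fin N → ℕ, Function.Injective p ∧
    ∀ j, (p j).Prime ∧ m < p j := by
  refine ⟨fun j => Nat.nth Nat.Prime (m + 1 + j), ?_, fun j => ⟨?_, ?_⟩⟩
  · intro a b h
    have := Nat.nth_injective Nat.infinite_setOfPred_prime h
    exact Fin.ext (by omega)
  · exact Nat.nth_mem_of_infinite Nat.infinite_setOfPred_prime _
  · have h : m + 1 + (j : ℕ) ≤ Nat.nth Nat.Prime (m + 1 + j) :=
      (Nat.nth_strictMono Nat.infinite_setOfPred_prime).le_apply
    exact lt_of_lt_of_le (by omega) h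

theorem exists_int {M : ℕ} (p : Fin M → ℕ) (hp : ∀ j, (p j).Prime) (hinj : Function.Injective p)
    (i : Fin M) : ∃ a : ℤ, (∀ j, j ≠ i → (p j : ℤ) ∣ a) ∧ (p i : ℤ) ∣ a - 1 := by
  classical
  have h : IsCoprime (p i : ℤ) (∏ j ∈ Finset.univ.erase i, (p j : ℤ)) := by
    refine IsCoprime.prod_right fun j hj => ?_
    rw [Nat.isCoprime_iff_coprime, Nat.coprime_primes (hp i) (hp j)]
    exact fun h => (Finset.mem_erase.1 hj).1 (hinj h).symm
  obtain ⟨a, b, hab⟩ := h
  refine ⟨b * ∏ j ∈ Finset.univ.erase i, (p j : ℤ), fun j hj => ?_, ⟨-a, by linear_combination hab⟩⟩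
  exact Dvd.dvd.mul_left (Finset.dvd_prod_of_mem _ (Finset.mem_erase.2 ⟨hj, Finset.mem_univ _⟩)) _

theorem plc_dvd {p : ℕ} [Fact p.Prime] {a : ℤ} (h : (p : ℤ) ∣ a) : plc p (a : Qb) < 1 := by
  obtain ⟨b, rfl⟩ := h
  rw [Int.cast_mul, map_mul, Int.cast_natCast]
  exact (mul_le_of_le_one_right zero_le (plc_int_le p b)).trans_lt (plc_p p)

open Chart in
/-- **Products of maps in affine charts have dense orbits.** -/
theorem affine {N : ℕ} (D : Fin N → Chart Qb) : ∃ z : Fin N → Qb,
    (∀ i n, (D i).A.eval ((D i).f^[n] (z i)) ≠ 0) ∧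
    ∀ P : MvPolynomial (Fin N) Qb,
      (∀ n : ℕ, MvPolynomial.eval (fun i => (D i).f^[n] (z i)) P = 0) → P = 0 := by
  classical
  -- the primes
  have hTf : (⋃ i, (D i).T).Finite := Set.finite_iUnion fun i => (D i).T_finite
  obtain ⟨m, hm, hgood⟩ := good_set hTf
  obtain ⟨p, hpinj, hp⟩ := exists_primes m (N + 1)
  have hfact : ∀ j, Fact (p j).Prime := fun j => ⟨(hp j).1⟩
  have hfine : ∀ i j, (D i).Fine (plc (p j)) := by
    intro i j
    refine (D i).fine_of fun x hx => hgood _ ?_ x (Set.mem_iUnion.2 ⟨i, hx⟩)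
    refine plc_nat (p j) fun hd => ?_
    have := Nat.le_of_dvd (Nat.pos_of_ne_zero hm) hd
    have := (hp j).2
    omega
  -- the starting points
  choose a ha ha' using fun i : Fin N => exists_int p (fun j => (hp j).1) hpinj i.castSucc
  let z : Fin N → Qb := fun i => (D i).G + (a i : Qb) * ((D i).C 0 - (D i).G)
  have hzG : ∀ i j, j ≠ i.castSucc → plc (p j) (z i - (D i).G) < 1 := by
    intro i j hj
    have e : z i - (D i).G = (a i : Qb) * ((D i).C 0 - (D i).G) := by
      show (D i).G + (a i : Qb) * ((D i).C 0 - (D i).G) - (D i).G = _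
      ring
    rw [e, map_mul, (hfine i j).uD, mul_one]
    exact plc_dvd (ha i j hj)
  have hzC : ∀ i : Fin N, plc (p i.castSucc) (z i - (D i).C 0) < 1 := by
    intro i
    have e : z i - (D i).C 0 = ((a i - 1 : ℤ) : Qb) * ((D i).C 0 - (D i).G) := by
      show (D i).G + (a i : Qb) * ((D i).C 0 - (D i).G) - (D i).C 0 = _
      push_cast
      ring
    rw [e, map_mul, (hfine i _).uD, mul_one]
    exact plc_dvd (ha' i)
  have hlast : ∀ i : Fin N, Fin.last N ≠ i.castSucc := fun i => (Fin.castSucc_lt_last i).ne'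
  have hcs : ∀ i j : Fin N, j ≠ i → j.castSucc ≠ i.castSucc := fun i j h h' =>
    h (Fin.castSucc_injective _ h')
  refine ⟨z, fun i n h0 => ?_, ?_⟩
  · have h := near_A (hfine i (Fin.last N)) (hzG i _ (hlast i)) n
    rw [h0, map_zero] at h
    exact zero_ne_one h
  intro P hP
  -- the number field
  let K : IntermediateField ℚ Qb := IntermediateField.adjoin ℚ (⋃ i, (D i).T)
  have hKf : FiniteDimensional ℚ K := by
    have : Finite ↥(⋃ i, (D i).T) := hTf
    exact IntermediateField.finiteDimensional_adjoin fun x _ => Algebra.IsIntegral.isIntegral x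
  have hKT : ∀ i, ∀ x ∈ (D i).T, x ∈ K := fun i x hx =>
    IntermediateField.subset_adjoin ℚ _ (Set.mem_iUnion.2 ⟨i, hx⟩)
  have hKz : ∀ i n, (D i).f^[n] (z i) ∈ K := by
    intro i n
    induction n with
    | zero =>
      have h1 : (D i).G ∈ K := hKT i _ (by unfold T; simp)
      have h2 : (D i).C 0 ∈ K := hKT i _ (by unfold T; simp)
      exact add_mem h1 (mul_mem (intCast_mem K (a i)) (sub_mem h2 h1))
    | succ n ih =>
      rw [Function.iterate_succ_apply']
      refine div_mem (eval_mem (fun x hx => ?_) ih) (eval_mem (fun x hx => ?_) ih)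
      · exact hKT i _ (by unfold T; simp [hx])
      · exact hKT i _ (by unfold T; simp [hx])
  -- the indices
  let l : ℕ := ∏ i, (D i).l
  have hl : 1 ≤ l := Finset.one_le_prod' fun i _ => (D i).hl
  have hdl : ∀ i, (D i).l ∣ l := fun i => Finset.dvd_prod_of_mem _ (Finset.mem_univ i)
  refine dense {n | l ∣ n} ⟨0, dvd_zero l⟩ (fun n i => (D i).f^[n] (z i)) (fun i => (D i).C 0)
    (fun i => plc (p i.castSucc)) ?_ ?_ ?_ ?_ ?_ P fun n _ => hP n
  · intro i n j
    by_cases hij : j = i
    · subst hij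
      exact att_int (hfine j _) (hzC j) n
    · exact near_int (hfine j _) (hzG j _ (hcs j i (Ne.symm hij))) n
  · intro i
    exact (hfine i _).hC 0
  · intro i n _ h
    have h1 := near (hfine i (Fin.last N)) (hzG i _ (hlast i)) n
    have h2 : (D i).f^[n] (z i) = (D i).C 0 := h
    rw [h2, (hfine i _).uD] at h1
    exact lt_irrefl _ h1
  · intro i ε hε
    obtain ⟨J, hJ⟩ := exists_pow_lt_of_lt_one hε (hzC i)
    refine ⟨(D i).l * J, fun n hn hln => ?_⟩
    obtain ⟨j, rfl⟩ := (hdl i).trans hln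
    have hJj : J ≤ j := Nat.le_of_mul_le_mul_left hn (D i).hl
    refine (att_pow (hfine i _) (hzC i) j).trans_lt (lt_of_le_of_lt ?_ hJ)
    exact pow_le_pow_of_le_one zero_le (hzC i).le (by omega)
  · intro i ε hε K₀
    obtain ⟨s, t, hst, h⟩ := recur (p i.castSucc) K
      (fun n j => if j = i then 0 else (D j).f^[l * n] (z j)) (by
        intro n j
        show (if j = i then (0 : Qb) else (D j).f^[l * n] (z j)) ∈ K
        split_ifs
        · exact zero_mem K
        · exact hKz j _) (by
        intro n j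
        show plc (p i.castSucc) (if j = i then (0 : Qb) else (D j).f^[l * n] (z j)) ≤ 1
        split_ifs with hj
        · rw [map_zero]; exact zero_le
        · exact near_int (hfine j _) (hzG j _ (hcs j i (Ne.symm hj))) _) hε K₀
    refine ⟨l * (t - s), ?_, fun n hn => ⟨?_, fun j hj => ?_⟩⟩
    · have := Nat.le_mul_of_pos_left (t - s) hl
      omega
    · exact dvd_add hn (dvd_mul_right _ _)
    · have h1 := h j
      simp only [if_neg hj] at h1
      have e : l * t = l * s + l * (t - s) := by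
        rw [← Nat.mul_add]
        congr 1
        omega
      have hz := hzG j _ (hcs j i (Ne.symm hj))
      rw [e, iso (hfine j _) hz] at h1
      show plc (p i.castSucc) ((D j).f^[n + l * (t - s)] (z j) - (D j).f^[n] (z j)) < ε
      rw [iso (hfine j _) hz]
      exact h1

end Pool.Agent.TH19.ZD
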