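import Pool.Agent.TH19.ZD.Form
import Pool.Agent.TH19.ZD.Aff

/-!
Charts in which a critical cycle and a noncritical fixed point are finite.
-/

set_option autoImplicit false

open MvPolynomial

namespace Pool.Agent.TH19.ZD

variable {k : Type*} [Field k]

/-- The map on the vectors. -/
noncomputable def phi (F G : MvPolynomial (Fin 2) k) (v : Fin 2 → k) : Fin 2 → k :=
  ![MvPolynomial.eval v F, MvPolynomial.eval v G]

/-- The point with the coordinate `z` in the chart. -/
def pt (s z : k) : Fin 2 → k := ![z, 1 + s * z]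

/-- The denominator of the coordinate. -/
def dn (s : k) (v : Fin 2 → k) : k := v 1 - s * v 0

theorem pt_ne (s z : k) : pt s z ≠ 0 := by
  intro h
  have h0 : z = 0 := congrFun h 0
  have h1 : 1 + s * z = 0 := congrFun h 1
  rw [h0, mul_zero, add_zero] at h1
  exact one_ne_zero h1

theorem dn_pt (s z : k) : dn s (pt s z) = 1 := by
  show 1 + s * z - s * z = 1
  ring

theorem eq_smul_pt {s : k} {v : Fin 2 → k} (h : dn s v ≠ 0) :
    v = dn s v • pt s (v 0 / dn s v) := by
  funext i
  fin_cases i
  · show v 0 = dn s v * (v 0 / dn s v)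
    field_simp
  · show v 1 = dn s v * (1 + s * (v 0 / dn s v))
    field_simp
    unfold dn
    ring

theorem dn_smul (s t : k) (v : Fin 2 → k) : dn s (t • v) = t * dn s v := by
  unfold dn
  simp only [Pi.smul_apply, smul_eq_mul]
  ring

section

variable {F G : MvPolynomial (Fin 2) k} {d : ℕ}

theorem phi_smul (hF : F.IsHomogeneous d) (hG : G.IsHomogeneous d) (t : k) (v : Fin 2 → k) :
    phi F G (t • v) = t ^ d • phi F G v := by
  funext i
  fin_cases i
  · exact eval_smul' hF t v
  · exact eval_smul' hG t v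

theorem iter_smul (hF : F.IsHomogeneous d) (hG : G.IsHomogeneous d) (t : k) (v : Fin 2 → k)
    (j : ℕ) : (phi F G)^[j] (t • v) = t ^ d ^ j • (phi F G)^[j] v := by
  induction j with
  | zero => rw [pow_zero, pow_one]; rfl
  | succ j ih =>
    rw [Function.iterate_succ_apply', ih, phi_smul hF hG, Function.iterate_succ_apply', ← pow_mul,
      ← pow_succ]

theorem phi_pt_zero (s z : k) : phi F G (pt s z) 0 = (num s F G).eval z :=
  (eval_res s z F).symm

theorem dn_phi_pt (s z : k) : dn s (phi F G (pt s z)) = (den s F G).eval z := by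
  unfold den
  rw [Polynomial.eval_sub, Polynomial.eval_mul, Polynomial.eval_C, eval_res, eval_res]
  rfl

theorem phi_pt {s z : k} (h : (den s F G).eval z ≠ 0) :
    phi F G (pt s z) = (den s F G).eval z • pt s ((num s F G).eval z / (den s F G).eval z) := by
  have h1 := eq_smul_pt (s := s) (v := phi F G (pt s z)) (by rwa [dn_phi_pt])
  rwa [dn_phi_pt, phi_pt_zero] at h1

theorem no_common (hne : ∀ v : Fin 2 → k, eval v F = 0 → eval v G = 0 → v = 0) {s z : k}
    (h : (den s F G).eval z = 0) : (num s F G).eval z ≠ 0 := by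
  intro h'
  unfold num at h'
  unfold den at h
  rw [Polynomial.eval_sub, Polynomial.eval_mul, h', mul_zero, sub_zero] at h
  rw [eval_res] at h h'
  exact pt_ne s z (hne _ h' h)

theorem den_deg (s : k) (hF : F.IsHomogeneous d) (hG : G.IsHomogeneous d) :
    (den s F G).natDegree ≤ d :=
  (Polynomial.natDegree_sub_le _ _).trans (max_le (res_coeff s hG).2
    ((Polynomial.natDegree_C_mul_le _ _).trans (res_coeff s hF).2))

theorem den_coeff (s : k) (hF : F.IsHomogeneous d) (hG : G.IsHomogeneous d) :
    (den s F G).coeff d = eval ![1, s] G - s * eval ![1, s] F := by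
  unfold den
  rw [Polynomial.coeff_sub, Polynomial.coeff_C_mul, (res_coeff s hG).1, (res_coeff s hF).1]

variable [IsAlgClosed k]

/-- Not all points are fixed. -/
theorem psi_ne (hd : 2 ≤ d) (hF : F.IsHomogeneous d) (hG : G.IsHomogeneous d)
    (hne : ∀ v : Fin 2 → k, eval v F = 0 → eval v G = 0 → v = 0) :
    (aeval ![1, Polynomial.X] G - Polynomial.X * aeval ![1, Polynomial.X] F : Polynomial k) ≠
      0 := by
  intro h
  have hp : (1 : Polynomial k).natDegree ≤ 1 := by rw [Polynomial.natDegree_one]; exact zero_le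
  have hFc := gen_coeff hp (Polynomial.natDegree_X_le (R := k)) hF
  have hGc := gen_coeff hp (Polynomial.natDegree_X_le (R := k)) hG
  rw [Polynomial.coeff_X_one, Polynomial.coeff_one, if_neg one_ne_zero] at hFc hGc
  set f : Polynomial k := aeval ![1, Polynomial.X] F with hf
  set g : Polynomial k := aeval ![1, Polynomial.X] G with hg
  have hgf : g = Polynomial.X * f := sub_eq_zero.1 h
  have hroot : ∀ s : k, f.eval s ≠ 0 := by
    intro s hs
    have hs' : g.eval s = 0 := by rw [hgf, Polynomial.eval_mul, hs, mul_zero]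
    rw [hf, eval_aeval2, Polynomial.eval_one, Polynomial.eval_X] at hs
    rw [hg, eval_aeval2, Polynomial.eval_one, Polynomial.eval_X] at hs'
    exact one_ne_zero (congrFun (hne _ hs hs') 0)
  have hdeg : f.degree = 0 := by
    by_contra hcon
    obtain ⟨s, hs⟩ := IsAlgClosed.exists_root f hcon
    exact hroot s hs
  have hnat : f.natDegree = 0 := Polynomial.natDegree_eq_of_degree_eq_some hdeg
  have h1 : f.coeff d = 0 := Polynomial.coeff_eq_zero_of_natDegree_lt (by omega)
  have h2 : g.coeff d = 0 := by
    obtain ⟨e, rfl⟩ : ∃ e, d = e + 1 := ⟨d - 1, by omega⟩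
    rw [hgf, Polynomial.coeff_X_mul]
    exact Polynomial.coeff_eq_zero_of_natDegree_lt (by omega)
  have h3 := hne ![0, 1] (by rw [← hFc.1, h1]) (by rw [← hGc.1, h2])
  exact one_ne_zero (congrFun h3 1)

/-- A chart. -/
theorem exists_s (hd : 2 ≤ d) (hF : F.IsHomogeneous d) (hG : G.IsHomogeneous d)
    (hne : ∀ v : Fin 2 → k, eval v F = 0 → eval v G = 0 → v = 0) {n : ℕ}
    (w : Fin n → Fin 2 → k) (hw : ∀ j, w j ≠ 0) :
    ∃ s : k, (den s F G).coeff d ≠ 0 ∧ ∀ j, dn s (w j) ≠ 0 := by
  have hψ := psi_ne hd hF hG hne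
  have hq : ∀ j, (Polynomial.C (w j 1) - Polynomial.X * Polynomial.C (w j 0)) ≠ 0 := by
    intro j h
    apply hw j
    have h0 := congrArg (fun p => Polynomial.eval 0 p) h
    have h1 := congrArg (fun p => Polynomial.eval 1 p) h
    simp at h0 h1
    funext i
    fin_cases i
    · show w j 0 = 0
      rw [h0] at h1
      simpa using h1
    · exact h0
  have hprod := mul_ne_zero hψ (Finset.prod_ne_zero_iff.2 fun j (_ : j ∈ Finset.univ) => hq j)
  obtain ⟨s, hs⟩ : ∃ s : k, Polynomial.eval s ((aeval ![1, Polynomial.X] G - Polynomial.X *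
      aeval ![1, Polynomial.X] F : Polynomial k) * ∏ j,
        (Polynomial.C (w j 1) - Polynomial.X * Polynomial.C (w j 0))) ≠ 0 := by
    by_contra hcon
    push Not at hcon
    exact hprod (Polynomial.funext fun s => by rw [hcon s, Polynomial.eval_zero])
  rw [Polynomial.eval_mul, Polynomial.eval_prod] at hs
  refine ⟨s, ?_, fun j => ?_⟩
  · have h1 := left_ne_zero_of_mul hs
    rw [Polynomial.eval_sub, Polynomial.eval_mul, Polynomial.eval_X, eval_aeval2, eval_aeval2,
      Polynomial.eval_one, Polynomial.eval_X] at h1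
    rwa [den_coeff s hF hG]
  · have h1 := Finset.prod_ne_zero_iff.1 (right_ne_zero_of_mul hs) j (Finset.mem_univ j)
    rw [Polynomial.eval_sub, Polynomial.eval_mul, Polynomial.eval_C, Polynomial.eval_C,
      Polynomial.eval_X] at h1
    exact h1

/-- A fixed point which is not critical. -/
theorem exists_fix [CharZero k] (hd : 1 ≤ d) {A B : Polynomial k} (hA : A.natDegree ≤ d)
    (hB : B.natDegree ≤ d) (hAd : A.coeff d ≠ 0) (hAB : ∀ z, A.eval z = 0 → B.eval z ≠ 0) :
    ∃ z, A.eval z ≠ 0 ∧ B.eval z / A.eval z = z ∧ (wr A B).eval z ≠ 0 := by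
  classical
  by_contra hcon
  push Not at hcon
  set h : Polynomial k := Polynomial.X * A - B with hh
  have hcoef : h.coeff (d + 1) ≠ 0 := by
    rw [hh, Polynomial.coeff_sub, Polynomial.coeff_X_mul,
      Polynomial.coeff_eq_zero_of_natDegree_lt (Nat.lt_succ_of_le hB), sub_zero]
    exact hAd
  have hh0 : h ≠ 0 := by
    intro h0
    rw [h0, Polynomial.coeff_zero] at hcoef
    exact hcoef rfl
  have hdeg : h.natDegree = d + 1 := by
    refine le_antisymm ?_ (Polynomial.le_natDegree_of_ne_zero hcoef)
    refine (Polynomial.natDegree_sub_le _ _).trans (max_le ?_ (by omega))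
    refine Polynomial.natDegree_mul_le.trans ?_
    have := Polynomial.natDegree_X_le (R := k)
    omega
  set g : Polynomial k := Polynomial.X * A.derivative - B.derivative with hg
  have hder : h.derivative = A + g := by
    rw [hh, hg, Polynomial.derivative_sub, Polynomial.derivative_mul, Polynomial.derivative_X]
    ring
  have hroot : ∀ z, h.IsRoot z → A.eval z ≠ 0 ∧ g.eval z = 0 := by
    intro z hz
    have h1 : z * A.eval z = B.eval z := by
      have : h.eval z = 0 := hz
      rw [hh, Polynomial.eval_sub, Polynomial.eval_mul, Polynomial.eval_X] at this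
      exact sub_eq_zero.1 this
    have h2 : A.eval z ≠ 0 := by
      intro h0
      refine hAB z h0 ?_
      rw [← h1, h0, mul_zero]
    refine ⟨h2, ?_⟩
    have h3 := hcon z h2 (by rw [← h1, mul_div_cancel_right₀ _ h2])
    unfold wr at h3
    rw [Polynomial.eval_sub, Polynomial.eval_mul, Polynomial.eval_mul, ← h1] at h3
    have h4 : A.eval z * (z * A.derivative.eval z - B.derivative.eval z) = 0 := by
      linear_combination -h3
    rw [hg, Polynomial.eval_sub, Polynomial.eval_mul, Polynomial.eval_X]
    exact (mul_eq_zero.1 h4).resolve_left h2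
  have hnodup : h.roots.Nodup := by
    rw [Multiset.nodup_iff_count_le_one]
    intro z
    rw [Polynomial.count_roots]
    by_contra hlt
    rw [not_le, Polynomial.one_lt_rootMultiplicity_iff_isRoot hh0] at hlt
    obtain ⟨h1, h2⟩ := hlt
    have h3 := hroot z h1
    have h4 : h.derivative.eval z = 0 := h2
    rw [hder, Polynomial.eval_add, h3.2, add_zero] at h4
    exact h3.1 h4
  have hcard : h.roots.toFinset.card = d + 1 := by
    rw [Multiset.toFinset_card_of_nodup hnodup, ← hdeg]
    exact (IsAlgClosed.splits h).natDegree_eq_card_roots.symm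
  have hgdeg : g.natDegree ≤ d := by
    refine (Polynomial.natDegree_sub_le _ _).trans (max_le ?_ ?_)
    · refine Polynomial.natDegree_mul_le.trans ?_
      have h1 := Polynomial.natDegree_X_le (R := k)
      have h2 := Polynomial.natDegree_derivative_le A
      omega
    · have h2 := Polynomial.natDegree_derivative_le B
      omega
  have hg0 : g = 0 := by
    refine Polynomial.eq_zero_of_natDegree_lt_card_of_eval_eq_zero' g h.roots.toFinset
      (fun z hz => ?_) (by omega)
    rw [Multiset.mem_toFinset, Polynomial.mem_roots hh0] at hz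
    exact (hroot z hz).2
  have hgd : g.coeff d = d * A.coeff d := by
    obtain ⟨e, rfl⟩ : ∃ e, d = e + 1 := ⟨d - 1, by omega⟩
    rw [hg, Polynomial.coeff_sub, Polynomial.coeff_X_mul, Polynomial.coeff_derivative,
      Polynomial.coeff_derivative, Polynomial.coeff_eq_zero_of_natDegree_lt
        (Nat.lt_succ_of_le hB)]
    push_cast
    ring
  rw [hg0, Polynomial.coeff_zero] at hgd
  have hd0 : (d : k) ≠ 0 := Nat.cast_ne_zero.2 (by omega)
  exact mul_ne_zero hd0 hAd hgd.symm

end

end Pool.Agent.TH19.ZD
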