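import Mathlib

/-!
Stripping a coordinate: polynomials that vanish on an orbit.
-/

set_option autoImplicit false

open scoped NNReal

namespace Pool.Agent.TH19.ZD

variable {k : Type*} [Field k]

/-- Polynomials are bounded and Lipschitz on the integral points. -/
theorem lip (v : Valuation k ℝ≥0) {r : ℕ} (P : MvPolynomial (Fin r) k) :
    ∃ M : ℝ≥0, (∀ x : Fin r → k, (∀ j, v (x j) ≤ 1) → v (MvPolynomial.eval x P) ≤ M) ∧
      ∀ (x y : Fin r → k) (ε : ℝ≥0), (∀ j, v (x j) ≤ 1) → (∀ j, v (y j) ≤ 1) →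
        (∀ j, v (x j - y j) ≤ ε) →
          v (MvPolynomial.eval x P - MvPolynomial.eval y P) ≤ M * ε := by
  induction P using MvPolynomial.induction_on with
  | C a =>
    refine ⟨v a, fun x _ => by rw [MvPolynomial.eval_C], fun x y ε _ _ _ => ?_⟩
    rw [MvPolynomial.eval_C, MvPolynomial.eval_C, sub_self, map_zero]
    exact zero_le
  | add p q hp hq =>
    obtain ⟨M, h1, h2⟩ := hp
    obtain ⟨M', h1', h2'⟩ := hq
    refine ⟨max M M', fun x hx => ?_, fun x y ε hx hy he => ?_⟩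
    · rw [map_add]
      exact (v.map_add _ _).trans (max_le_max (h1 x hx) (h1' x hx))
    · rw [map_add, map_add, add_sub_add_comm]
      refine (v.map_add _ _).trans (max_le ?_ ?_)
      · exact (h2 x y ε hx hy he).trans (mul_le_mul_left (le_max_left _ _) _)
      · exact (h2' x y ε hx hy he).trans (mul_le_mul_left (le_max_right _ _) _)
  | mul_X p i hp =>
    obtain ⟨M, h1, h2⟩ := hp
    refine ⟨M, fun x hx => ?_, fun x y ε hx hy he => ?_⟩
    · rw [map_mul, MvPolynomial.eval_X, map_mul]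
      exact (mul_le_of_le_one_right zero_le (hx i)).trans (h1 x hx)
    · have e : MvPolynomial.eval x (p * MvPolynomial.X i) -
          MvPolynomial.eval y (p * MvPolynomial.X i) =
          (MvPolynomial.eval x p - MvPolynomial.eval y p) * x i +
            MvPolynomial.eval y p * (x i - y i) := by
        rw [map_mul, map_mul, MvPolynomial.eval_X, MvPolynomial.eval_X]
        ring
      rw [e]
      refine (v.map_add _ _).trans (max_le ?_ ?_)
      · rw [map_mul]
        exact (mul_le_of_le_one_right zero_le (hx i)).trans (h2 x y ε hx hy he)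
      · rw [map_mul]
        exact mul_le_mul' (h1 y hy) (he i)

/-- Stripping the first coordinate. -/
theorem strip (v : Valuation k ℝ≥0) {r : ℕ} (S : Set ℕ) (x : ℕ → Fin (r + 1) → k) (c : k)
    (P : MvPolynomial (Fin (r + 1)) k) (hP : P ≠ 0) (hx : ∀ n j, v (x n j) ≤ 1) (hc : v c ≤ 1)
    (hne : ∀ n ∈ S, x n 0 ≠ c)
    (hlim : ∀ ε : ℝ≥0, 0 < ε → ∃ K, ∀ n, K ≤ n → n ∈ S → v (x n 0 - c) < ε)
    (hrec : ∀ ε : ℝ≥0, 0 < ε → ∀ K, ∃ M, K ≤ M ∧ ∀ n ∈ S, n + M ∈ S ∧
      ∀ j : Fin r, v (x (n + M) j.succ - x n j.succ) < ε)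
    (hvan : ∀ n ∈ S, MvPolynomial.eval (x n) P = 0) :
    ∃ Q : MvPolynomial (Fin r) k, Q ≠ 0 ∧
      ∀ n ∈ S, MvPolynomial.eval (fun j => x n j.succ) Q = 0 := by
  classical
  set a : MvPolynomial (Fin r) k := MvPolynomial.C c with ha
  have hP' : MvPolynomial.finSuccEquiv k r P ≠ 0 :=
    (map_ne_zero_iff _ (MvPolynomial.finSuccEquiv k r).injective).2 hP
  obtain ⟨Q', hQ', hnd⟩ := Polynomial.exists_eq_pow_rootMultiplicity_mul_and_not_dvd _ hP' a
  have hev : ∀ (y : Fin r → k), MvPolynomial.eval y a = c := fun y => MvPolynomial.eval_C c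
  set Q1 : MvPolynomial (Fin (r + 1)) k := (MvPolynomial.finSuccEquiv k r).symm Q' with hQ1
  have hQ1' : MvPolynomial.finSuccEquiv k r Q1 = Q' := AlgEquiv.apply_symm_apply _ _
  have heval : ∀ (y : Fin (r + 1) → k) (R : MvPolynomial (Fin (r + 1)) k),
      MvPolynomial.eval y R = Polynomial.eval (y 0)
        (Polynomial.map (MvPolynomial.eval (fun j : Fin r => y j.succ))
          (MvPolynomial.finSuccEquiv k r R)) := by
    intro y R
    have h1 := MvPolynomial.eval_eq_eval_mv_eval' (fun j : Fin r => y j.succ) (y 0) R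
    have h2 : (Fin.cons (y 0) (fun j : Fin r => y j.succ) : Fin (r + 1) → k) = y :=
      Fin.cons_self_tail y
    rw [h2] at h1
    exact h1
  have hvan' : ∀ n ∈ S, MvPolynomial.eval (x n) Q1 = 0 := by
    intro n hn
    have h1 := hvan n hn
    rw [heval, hQ', Polynomial.map_mul, Polynomial.eval_mul, Polynomial.map_pow,
      Polynomial.eval_pow, Polynomial.map_sub, Polynomial.map_X, Polynomial.map_C, hev,
      Polynomial.eval_sub, Polynomial.eval_X, Polynomial.eval_C] at h1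
    rw [heval, hQ1']
    exact (mul_eq_zero.1 h1).resolve_left (pow_ne_zero _ (sub_ne_zero.2 (hne n hn)))
  refine ⟨Q'.eval a, fun h => hnd (Polynomial.dvd_iff_isRoot.2 h), ?_⟩
  have hQe : ∀ y : Fin (r + 1) → k, MvPolynomial.eval (fun j => y j.succ) (Q'.eval a) =
      MvPolynomial.eval (Fin.cons c (fun j : Fin r => y j.succ) : Fin (r + 1) → k) Q1 := by
    intro y
    rw [heval, hQ1', Fin.cons_zero]
    simp only [Fin.cons_succ]
    rw [← Polynomial.eval₂_eq_eval_map, ← hev (fun j => y j.succ), Polynomial.eval₂_hom]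
  obtain ⟨M, hM1, hM2⟩ := lip v Q1
  have hcons : ∀ n j, v ((Fin.cons c (fun j : Fin r => x n j.succ) : Fin (r + 1) → k) j) ≤ 1 := by
    intro n j
    refine Fin.cases ?_ (fun j => ?_) j
    · rw [Fin.cons_zero]; exact hc
    · rw [Fin.cons_succ]; exact hx n _
  -- values at points of `S`
  have hsmall : ∀ n ∈ S, v (MvPolynomial.eval (fun j => x n j.succ) (Q'.eval a)) ≤
      M * v (x n 0 - c) := by
    intro n hn
    rw [hQe, ← sub_zero (MvPolynomial.eval _ Q1), ← hvan' n hn]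
    refine hM2 _ _ _ (hcons n) (hx n) fun j => ?_
    refine Fin.cases ?_ (fun j => ?_) j
    · rw [Fin.cons_zero, v.map_sub_swap]
    · rw [Fin.cons_succ, sub_self, map_zero]
      exact zero_le
  have hclose : ∀ n m (ε : ℝ≥0), (∀ j : Fin r, v (x m j.succ - x n j.succ) ≤ ε) →
      v (MvPolynomial.eval (fun j => x m j.succ) (Q'.eval a) -
        MvPolynomial.eval (fun j => x n j.succ) (Q'.eval a)) ≤ M * ε := by
    intro n m ε h
    rw [hQe, hQe]
    refine hM2 _ _ _ (hcons m) (hcons n) fun j => ?_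
    refine Fin.cases ?_ (fun j => ?_) j
    · rw [Fin.cons_zero, Fin.cons_zero, sub_self, map_zero]
      exact zero_le
    · rw [Fin.cons_succ, Fin.cons_succ]
      exact h j
  intro n hn
  rw [← v.zero_iff]
  refine le_antisymm ?_ zero_le
  refine le_of_forall_pos_le_add fun δ hδ => ?_
  rw [zero_add]
  -- choose `ε` with `M ε ≤ δ`
  set ε : ℝ≥0 := δ / (M + 1) with hε
  have hM0 : (0 : ℝ≥0) < M + 1 := lt_of_lt_of_le zero_lt_one (le_add_of_nonneg_left zero_le)
  have hεp : 0 < ε := div_pos hδ hM0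
  have hMε : M * ε ≤ δ := by
    calc M * ε ≤ (M + 1) * ε := mul_le_mul_left (le_add_of_nonneg_right zero_le) _
      _ = δ := by rw [hε, mul_div_cancel₀ _ hM0.ne']
  obtain ⟨K, hK⟩ := hlim ε hεp
  obtain ⟨m, hm, hm2⟩ := hrec ε hεp K
  obtain ⟨hS, hj⟩ := hm2 n hn
  have h1 := (hsmall (n + m) hS).trans
    ((mul_le_mul_right (hK (n + m) (by omega) hS).le M).trans hMε)
  have h2 := (hclose n (n + m) ε fun j => (hj j).le).trans hMε
  have e : MvPolynomial.eval (fun j => x n j.succ) (Q'.eval a) =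
      MvPolynomial.eval (fun j => x (n + m) j.succ) (Q'.eval a) -
        (MvPolynomial.eval (fun j => x (n + m) j.succ) (Q'.eval a) -
          MvPolynomial.eval (fun j => x n j.succ) (Q'.eval a)) := by ring
  rw [e]
  exact (v.map_sub _ _).trans (max_le h1 h2)

/-- Orbits with all coordinates attracted at different places are dense. -/
theorem dense {N : ℕ} (S : Set ℕ) (hS : S.Nonempty) (x : ℕ → Fin N → k) (c : Fin N → k)
    (v : Fin N → Valuation k ℝ≥0) (hx : ∀ i n j, v i (x n j) ≤ 1) (hc : ∀ i, v i (c i) ≤ 1)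
    (hne : ∀ i, ∀ n ∈ S, x n i ≠ c i)
    (hlim : ∀ i, ∀ ε : ℝ≥0, 0 < ε → ∃ K, ∀ n, K ≤ n → n ∈ S → v i (x n i - c i) < ε)
    (hrec : ∀ i, ∀ ε : ℝ≥0, 0 < ε → ∀ K, ∃ M, K ≤ M ∧ ∀ n ∈ S, n + M ∈ S ∧
      ∀ j, j ≠ i → v i (x (n + M) j - x n j) < ε)
    (P : MvPolynomial (Fin N) k) (hvan : ∀ n ∈ S, MvPolynomial.eval (x n) P = 0) : P = 0 := by
  induction N with
  | zero =>
    obtain ⟨n, hn⟩ := hS
    have h := hvan n hn
    rw [MvPolynomial.eq_C_of_isEmpty P, MvPolynomial.eval_C] at h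
    rw [MvPolynomial.eq_C_of_isEmpty P, h, MvPolynomial.C_0]
  | succ N ih =>
    by_contra hP
    obtain ⟨Q, hQ, h⟩ := strip (v 0) S x (c 0) P hP (hx 0) (hc 0) (hne 0) (hlim 0) (by
      intro ε hε K
      obtain ⟨M, h1, h2⟩ := hrec 0 ε hε K
      exact ⟨M, h1, fun n hn => ⟨(h2 n hn).1, fun j => (h2 n hn).2 j.succ (Fin.succ_ne_zero j)⟩⟩)
      hvan
    refine hQ (ih (fun n j => x n j.succ) (fun i => c i.succ) (fun i => v i.succ)
      (fun i n j => hx i.succ n j.succ) (fun i => hc i.succ) (fun i => hne i.succ)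
      (fun i => hlim i.succ) ?_ Q h)
    intro i ε hε K
    obtain ⟨M, h1, h2⟩ := hrec i.succ ε hε K
    exact ⟨M, h1, fun n hn => ⟨(h2 n hn).1, fun j hj => (h2 n hn).2 j.succ
      (fun h => hj (Fin.succ_injective _ h))⟩⟩

end Pool.Agent.TH19.ZD
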