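import Pool.Agent.TH19.ZD.Place
import Pool.Agent.TH19.ZD.Strip

/-!
Rational maps in affine charts: orbits which are attracted at one place and recurrent at others.
-/

set_option autoImplicit false

open scoped NNReal

namespace Pool.Agent.TH19.ZD

/-- A rational map `B / A` in an affine chart, with a periodic critical point `C 0` of period
dividing `l` and a fixed point `G` which is not critical, all these points being finite. -/
structure Chart (k : Type*) [Field k] where
  A : Polynomial k
  B : Polynomial k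
  l : ℕ
  C : ℕ → k
  G : k
  hl : 1 ≤ l
  per : ∀ n, C (n + l) = C n
  AC : ∀ n, A.eval (C n) ≠ 0
  orb : ∀ n, B.eval (C n) / A.eval (C n) = C (n + 1)
  crit : (wr A B).eval (C 0) = 0
  AG : A.eval G ≠ 0
  fix : B.eval G / A.eval G = G
  ncrit : (wr A B).eval G ≠ 0

namespace Chart

variable {k : Type*} [Field k] (D : Chart k)

/-- The rational map. -/
noncomputable def f (z : k) : k := D.B.eval z / D.A.eval z

theorem C_ne (n : ℕ) : D.C n ≠ D.G := by
  intro h
  have h1 : ∀ m, D.C (n + m) = D.G := by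
    intro m
    induction m with
    | zero => exact h
    | succ m ih =>
      rw [← Nat.add_assoc, ← D.orb, ih]
      exact D.fix
  have h2 : ∀ m, D.C (0 + m * D.l) = D.C 0 := by
    intro m
    induction m with
    | zero => rw [Nat.zero_mul]
    | succ m ih => rw [Nat.succ_mul, ← Nat.add_assoc, D.per, ih]
  have h3 := h1 (n * D.l - n)
  have h4 : n + (n * D.l - n) = 0 + n * D.l := by
    have := Nat.le_mul_of_pos_right n D.hl
    omega
  rw [h4, h2] at h3
  exact D.ncrit (h3 ▸ D.crit)

/-- The map has good reduction properties at `v`. -/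
structure Fine (v : Valuation k ℝ≥0) : Prop where
  hA : IntPol v D.A
  hB : IntPol v D.B
  hC : ∀ n, v (D.C n) ≤ 1
  hG : v D.G ≤ 1
  uC : ∀ n, v (D.A.eval (D.C n)) = 1
  uG : v (D.A.eval D.G) = 1
  uW : v ((wr D.A D.B).eval D.G) = 1
  uD : ∀ n, v (D.C n - D.G) = 1

/-- The finite set of elements which must be integral. -/
def T : Set k :=
  ↑D.A.coeffs ∪ ↑D.B.coeffs ∪ Set.range D.C ∪ {D.G} ∪
    (fun x => (D.A.eval x)⁻¹) '' Set.range D.C ∪ {(D.A.eval D.G)⁻¹} ∪
    {((wr D.A D.B).eval D.G)⁻¹} ∪ (fun x => (x - D.G)⁻¹) '' Set.range D.C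

theorem finite_range : (Set.range D.C).Finite := by
  have hp : Function.Periodic D.C D.l := D.per
  refine ((Set.finite_Iio D.l).image D.C).subset ?_
  rintro _ ⟨n, rfl⟩
  exact ⟨n % D.l, Nat.mod_lt _ D.hl, hp.map_mod_nat n⟩

theorem T_finite : D.T.Finite := by
  have h := D.finite_range
  unfold T
  exact (((((((Finset.finite_toSet _).union (Finset.finite_toSet _)).union h).union
    (Set.finite_singleton _)).union (h.image _)).union (Set.finite_singleton _)).union
    (Set.finite_singleton _)).union (h.image _)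

theorem eq_one_of_inv {v : Valuation k ℝ≥0} {x : k} (hx : x ≠ 0) (h : v x ≤ 1)
    (h' : v x⁻¹ ≤ 1) : v x = 1 := by
  refine le_antisymm h ?_
  have h1 : v x * v x⁻¹ = 1 := by rw [← map_mul, mul_inv_cancel₀ hx, map_one]
  calc (1 : ℝ≥0) = v x * v x⁻¹ := h1.symm
    _ ≤ v x := mul_le_of_le_one_right zero_le h'

theorem intPol_of {v : Valuation k ℝ≥0} {g : Polynomial k} (h : ∀ x ∈ g.coeffs, v x ≤ 1) :
    IntPol v g := by
  intro n
  by_cases hn : g.coeff n = 0
  · rw [hn, map_zero]
    exact zero_le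
  · exact h _ (Polynomial.coeff_mem_coeffs hn)

theorem fine_of {v : Valuation k ℝ≥0} (h : ∀ x ∈ D.T, v x ≤ 1) : D.Fine v := by
  have hA : IntPol v D.A := intPol_of fun x hx => h x (by unfold T; simp [hx])
  have hB : IntPol v D.B := intPol_of fun x hx => h x (by unfold T; simp [hx])
  have hC : ∀ n, v (D.C n) ≤ 1 := fun n => h _ (by unfold T; simp)
  have hG : v D.G ≤ 1 := h _ (by unfold T; simp)
  refine ⟨hA, hB, hC, hG, fun n => ?_, ?_, ?_, fun n => ?_⟩
  · refine eq_one_of_inv (D.AC n) (map_eval_le hA (hC n)) (h _ ?_)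
    unfold T
    simp
  · refine eq_one_of_inv D.AG (map_eval_le hA hG) (h _ ?_)
    unfold T
    simp
  · refine eq_one_of_inv D.ncrit (map_eval_le (wr_int hA hB) hG) (h _ ?_)
    unfold T
    simp
  · refine eq_one_of_inv (sub_ne_zero.2 (D.C_ne n))
      ((v.map_sub _ _).trans (max_le (hC n) hG)) (h _ ?_)
    unfold T
    simp

variable {D} {v : Valuation k ℝ≥0} {z : k}

/-- An orbit near the fixed point stays near it. -/
theorem near (hF : D.Fine v) (hz : v (z - D.G) < 1) (n : ℕ) : v (D.f^[n] z - D.G) < 1 := by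
  induction n with
  | zero => exact hz
  | succ n ih =>
    rw [Function.iterate_succ_apply']
    have h := step_le hF.hA hF.hB hF.hG hF.uG ih
    rw [D.fix] at h
    exact h.trans_lt ih

theorem near_int (hF : D.Fine v) (hz : v (z - D.G) < 1) (n : ℕ) : v (D.f^[n] z) ≤ 1 := by
  have h : D.f^[n] z = (D.f^[n] z - D.G) + D.G := by ring
  rw [h]
  exact (v.map_add _ _).trans (max_le (near hF hz n).le hF.hG)

theorem near_A (hF : D.Fine v) (hz : v (z - D.G) < 1) (n : ℕ) :
    v (D.A.eval (D.f^[n] z)) = 1 :=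
  map_eq_one_of_near hF.hA hF.hG hF.uG (near hF hz n)

/-- The map is an isometry near the fixed point. -/
theorem iso (hF : D.Fine v) (hz : v (z - D.G) < 1) (m n : ℕ) :
    v (D.f^[n + m] z - D.f^[n] z) = v (D.f^[m] z - z) := by
  induction n with
  | zero => rw [Nat.zero_add]; rfl
  | succ n ih =>
    rw [← ih, Nat.add_right_comm, Function.iterate_succ_apply', Function.iterate_succ_apply']
    refine step_eq hF.hA hF.hB (near_int hF hz n) (near_A hF hz n) ?_ ?_
    · have e : D.f^[n + m] z - D.f^[n] z =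
          (D.f^[n + m] z - D.G) - (D.f^[n] z - D.G) := by ring
      rw [e]
      exact (v.map_sub _ _).trans_lt (max_lt (near hF hz _) (near hF hz _))
    · exact map_eq_one_of_near (wr_int hF.hA hF.hB) hF.hG hF.uW (near hF hz n)

/-- An orbit near the cycle stays near it. -/
theorem att (hF : D.Fine v) (hz : v (z - D.C 0) < 1) (n : ℕ) :
    v (D.f^[n] z - D.C n) < 1 := by
  induction n with
  | zero => exact hz
  | succ n ih =>
    rw [Function.iterate_succ_apply']
    have h := step_le hF.hA hF.hB (hF.hC n) (hF.uC n) ih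
    rw [D.orb] at h
    exact h.trans_lt ih

theorem att_int (hF : D.Fine v) (hz : v (z - D.C 0) < 1) (n : ℕ) : v (D.f^[n] z) ≤ 1 := by
  have h : D.f^[n] z = (D.f^[n] z - D.C n) + D.C n := by ring
  rw [h]
  exact (v.map_add _ _).trans (max_le (att hF hz n).le (hF.hC n))

theorem att_le (hF : D.Fine v) (hz : v (z - D.C 0) < 1) (n m : ℕ) :
    v (D.f^[n + m] z - D.C (n + m)) ≤ v (D.f^[n] z - D.C n) := by
  induction m with
  | zero => exact le_rfl
  | succ m ih =>
    rw [← Nat.add_assoc, Function.iterate_succ_apply']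
    have h := step_le hF.hA hF.hB (hF.hC (n + m)) (hF.uC (n + m)) (att hF hz (n + m))
    rw [D.orb] at h
    exact h.trans ih

theorem C_mul (j : ℕ) : D.C (D.l * j) = D.C 0 := by
  induction j with
  | zero => rfl
  | succ j ih => rw [Nat.mul_succ, D.per, ih]

theorem att_pow (hF : D.Fine v) (hz : v (z - D.C 0) < 1) (j : ℕ) :
    v (D.f^[D.l * j] z - D.C 0) ≤ v (z - D.C 0) ^ (j + 1) := by
  induction j with
  | zero => rw [Nat.mul_zero, zero_add, pow_one]; exact le_rfl
  | succ j ih =>
    have h1 := att_le hF hz (D.l * j + 1) (D.l - 1)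
    have e : D.l * j + 1 + (D.l - 1) = D.l * (j + 1) := by
      have := D.hl
      rw [Nat.mul_succ]
      omega
    rw [e, C_mul] at h1
    have h2 := step_sq hF.hA hF.hB (hF.hC (D.l * j)) (hF.uC (D.l * j)) (att hF hz (D.l * j))
      (by rw [C_mul]; exact D.crit)
    rw [D.orb] at h2
    rw [Function.iterate_succ_apply'] at h1
    refine (h1.trans h2).trans ?_
    rw [C_mul, sq, pow_succ]
    refine mul_le_mul' ih (ih.trans ?_)
    exact pow_le_of_le_one zero_le hz.le (Nat.succ_ne_zero j)

end Chart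

end Pool.Agent.TH19.ZD
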