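import Pool.Agent.TH19.ZD.V

/-!
Binary forms in an affine chart.
-/

set_option autoImplicit false

open MvPolynomial

namespace Pool.Agent.TH19.ZD

variable {k : Type*} [Field k]

theorem eval_aeval2 (p q : Polynomial k) (z : k) (F : MvPolynomial (Fin 2) k) :
    (MvPolynomial.aeval ![p, q] F).eval z = MvPolynomial.eval ![p.eval z, q.eval z] F := by
  induction F using MvPolynomial.induction_on with
  | C a => simp
  | add f g hf hg => rw [map_add, map_add, Polynomial.eval_add, hf, hg]
  | mul_X f i hf =>
    rw [map_mul, map_mul, Polynomial.eval_mul, hf, MvPolynomial.aeval_X, MvPolynomial.eval_X]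
    congr 1
    fin_cases i <;> rfl

theorem eval_smul' {d : ℕ} {F : MvPolynomial (Fin 2) k} (hF : F.IsHomogeneous d) (t : k)
    (v : Fin 2 → k) : MvPolynomial.eval (t • v) F = t ^ d * MvPolynomial.eval v F := by
  rw [MvPolynomial.eval_eq', MvPolynomial.eval_eq', Finset.mul_sum]
  refine Finset.sum_congr rfl fun m hm => ?_
  have h := hF (MvPolynomial.mem_support_iff.1 hm)
  rw [Finsupp.weight_apply, Finsupp.sum_fintype _ _ (fun _ => by simp), Fin.sum_univ_two] at h
  simp only [Pi.one_apply, smul_eq_mul, mul_one] at h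
  rw [Fin.prod_univ_two, Fin.prod_univ_two, ← h]
  simp only [Pi.smul_apply, smul_eq_mul]
  ring

theorem gen_coeff {p q : Polynomial k} (hp : p.natDegree ≤ 1) (hq : q.natDegree ≤ 1) {d : ℕ}
    {F : MvPolynomial (Fin 2) k} (hF : F.IsHomogeneous d) :
    (MvPolynomial.aeval ![p, q] F).coeff d = MvPolynomial.eval ![p.coeff 1, q.coeff 1] F ∧
      (MvPolynomial.aeval ![p, q] F).natDegree ≤ d := by
  have key : ∀ m ∈ F.support, m 0 + m 1 = d := by
    intro m hm
    have h := hF (MvPolynomial.mem_support_iff.1 hm)
    rw [Finsupp.weight_apply, Finsupp.sum_fintype _ _ (fun _ => by simp), Fin.sum_univ_two] at h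
    simpa only [Pi.one_apply, smul_eq_mul, mul_one] using h
  have hp' : ∀ n : ℕ, (p ^ n).natDegree ≤ n := fun n =>
    Polynomial.natDegree_pow_le.trans (by nlinarith)
  have hq' : ∀ n : ℕ, (q ^ n).natDegree ≤ n := fun n =>
    Polynomial.natDegree_pow_le.trans (by nlinarith)
  rw [MvPolynomial.aeval_def, MvPolynomial.eval₂_eq', MvPolynomial.eval_eq']
  constructor
  · rw [Polynomial.finsetSum_coeff]
    refine Finset.sum_congr rfl fun m hm => ?_
    have h := key m hm
    rw [Fin.prod_univ_two, Fin.prod_univ_two, Polynomial.algebraMap_eq, Polynomial.coeff_C_mul]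
    congr 1
    show (p ^ m 0 * q ^ m 1).coeff d = p.coeff 1 ^ m 0 * q.coeff 1 ^ m 1
    rw [← h, Polynomial.coeff_mul_add_eq_of_natDegree_le (hp' _) (hq' _)]
    congr 1
    · have := Polynomial.coeff_pow_of_natDegree_le (m := m 0) hp
      rwa [mul_one] at this
    · have := Polynomial.coeff_pow_of_natDegree_le (m := m 1) hq
      rwa [mul_one] at this
  · refine Polynomial.natDegree_sum_le_of_forall_le _ _ fun m hm => ?_
    have h := key m hm
    rw [Fin.prod_univ_two, Polynomial.algebraMap_eq]
    refine (Polynomial.natDegree_C_mul_le _ _).trans ?_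
    show (p ^ m 0 * q ^ m 1).natDegree ≤ d
    refine Polynomial.natDegree_mul_le.trans ?_
    have := hp' (m 0)
    have := hq' (m 1)
    omega

theorem deriv_aeval (p q : Polynomial k) (F : MvPolynomial (Fin 2) k) :
    (MvPolynomial.aeval ![p, q] F).derivative =
      MvPolynomial.aeval ![p, q] (MvPolynomial.pderiv 0 F) * p.derivative +
        MvPolynomial.aeval ![p, q] (MvPolynomial.pderiv 1 F) * q.derivative := by
  induction F using MvPolynomial.induction_on with
  | C a => simp
  | add f g hf hg =>
    simp only [map_add, hf, hg]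
    ring
  | mul_X f i hf =>
    simp only [map_mul, Polynomial.derivative_mul, hf, MvPolynomial.aeval_X, Derivation.leibniz,
      smul_eq_mul, map_add]
    fin_cases i
    · simp
      ring
    · simp
      ring

/-- The form `F` in the chart with the coordinate `z`, the points `(z, 1 + s z)`. -/
noncomputable def res (s : k) (F : MvPolynomial (Fin 2) k) : Polynomial k :=
  MvPolynomial.aeval ![Polynomial.X, 1 + Polynomial.C s * Polynomial.X] F

theorem eval_res (s z : k) (F : MvPolynomial (Fin 2) k) :
    (res s F).eval z = MvPolynomial.eval ![z, 1 + s * z] F := by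
  unfold res
  rw [eval_aeval2]
  simp

theorem natDegree_lin (s : k) : (1 + Polynomial.C s * Polynomial.X).natDegree ≤ 1 := by
  rw [add_comm, ← Polynomial.C_1]
  exact Polynomial.natDegree_linear_le

theorem res_coeff (s : k) {d : ℕ} {F : MvPolynomial (Fin 2) k} (hF : F.IsHomogeneous d) :
    (res s F).coeff d = MvPolynomial.eval ![1, s] F ∧ (res s F).natDegree ≤ d := by
  have h := gen_coeff (Polynomial.natDegree_X_le) (natDegree_lin s) hF
  rw [Polynomial.coeff_X_one, Polynomial.coeff_add, Polynomial.coeff_C_mul,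
    Polynomial.coeff_X_one, Polynomial.coeff_one, if_neg one_ne_zero, zero_add, mul_one] at h
  exact h

/-- The Jacobian determinant. -/
noncomputable def jac (F G : MvPolynomial (Fin 2) k) : MvPolynomial (Fin 2) k :=
  MvPolynomial.pderiv 0 F * MvPolynomial.pderiv 1 G -
    MvPolynomial.pderiv 1 F * MvPolynomial.pderiv 0 G

/-- Numerator and denominator of the map in the chart. -/
noncomputable def num (s : k) (F _G : MvPolynomial (Fin 2) k) : Polynomial k := res s F

/-- Numerator and denominator of the map in the chart. -/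
noncomputable def den (s : k) (F G : MvPolynomial (Fin 2) k) : Polynomial k :=
  res s G - Polynomial.C s * res s F

theorem wr_chart (s z : k) {d : ℕ} {F G : MvPolynomial (Fin 2) k} (hF : F.IsHomogeneous d)
    (hG : G.IsHomogeneous d) : (d : k) * (wr (den s F G) (num s F G)).eval z =
      MvPolynomial.eval ![z, 1 + s * z] (jac F G) := by
  have e1 := congrArg (MvPolynomial.eval ![z, 1 + s * z]) hF.sum_X_mul_pderiv
  have e2 := congrArg (MvPolynomial.eval ![z, 1 + s * z]) hG.sum_X_mul_pderiv
  rw [Fin.sum_univ_two, map_add, map_mul, map_mul, MvPolynomial.eval_X, MvPolynomial.eval_X,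
    map_nsmul, nsmul_eq_mul] at e1 e2
  have f0 : (![z, 1 + s * z] : Fin 2 → k) 0 = z := rfl
  have f1 : (![z, 1 + s * z] : Fin 2 → k) 1 = 1 + s * z := rfl
  rw [f0, f1] at e1 e2
  have dF : (res s F).derivative.eval z = MvPolynomial.eval ![z, 1 + s * z] (pderiv 0 F) +
      MvPolynomial.eval ![z, 1 + s * z] (pderiv 1 F) * s := by
    unfold res
    rw [deriv_aeval, Polynomial.eval_add, Polynomial.eval_mul, Polynomial.eval_mul]
    rw [show MvPolynomial.aeval ![Polynomial.X, 1 + Polynomial.C s * Polynomial.X] (pderiv 0 F) =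
      res s (pderiv 0 F) from rfl,
      show MvPolynomial.aeval ![Polynomial.X, 1 + Polynomial.C s * Polynomial.X] (pderiv 1 F) =
      res s (pderiv 1 F) from rfl, eval_res, eval_res]
    simp
  have dG : (res s G).derivative.eval z = MvPolynomial.eval ![z, 1 + s * z] (pderiv 0 G) +
      MvPolynomial.eval ![z, 1 + s * z] (pderiv 1 G) * s := by
    unfold res
    rw [deriv_aeval, Polynomial.eval_add, Polynomial.eval_mul, Polynomial.eval_mul]
    rw [show MvPolynomial.aeval ![Polynomial.X, 1 + Polynomial.C s * Polynomial.X] (pderiv 0 G) =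
      res s (pderiv 0 G) from rfl,
      show MvPolynomial.aeval ![Polynomial.X, 1 + Polynomial.C s * Polynomial.X] (pderiv 1 G) =
      res s (pderiv 1 G) from rfl, eval_res, eval_res]
    simp
  unfold wr num den jac
  simp only [Polynomial.eval_sub, Polynomial.eval_mul, 
    Polynomial.derivative_C_mul, Polynomial.eval_C, dF, dG, eval_res, map_sub, map_mul]
  set a := MvPolynomial.eval ![z, 1 + s * z] (pderiv 0 F)
  set b := MvPolynomial.eval ![z, 1 + s * z] (pderiv 1 F)
  set a' := MvPolynomial.eval ![z, 1 + s * z] (pderiv 0 G)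
  set b' := MvPolynomial.eval ![z, 1 + s * z] (pderiv 1 G)
  set f := MvPolynomial.eval ![z, 1 + s * z] F
  set g := MvPolynomial.eval ![z, 1 + s * z] G
  linear_combination (a' + b' * s) * e1 - (a + b * s) * e2

end Pool.Agent.TH19.ZD
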