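import Pool.Agent.TH19.ZD.Chart

/-!
Products of rational maps with periodic critical points have Zariski dense orbits.
-/

set_option autoImplicit false

open MvPolynomial

namespace Pool.Agent.TH19.ZD

section

variable {k : Type*} [Field k] {F G : MvPolynomial (Fin 2) k} {d : ℕ}

theorem phi_ne (hne : ∀ v : Fin 2 → k, eval v F = 0 → eval v G = 0 → v = 0) {v : Fin 2 → k}
    (hv : v ≠ 0) : phi F G v ≠ 0 := fun h => hv (hne v (congrFun h 0) (congrFun h 1))

theorem iter_ne (hne : ∀ v : Fin 2 → k, eval v F = 0 → eval v G = 0 → v = 0) {v : Fin 2 → k}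
    (hv : v ≠ 0) (j : ℕ) : (phi F G)^[j] v ≠ 0 := by
  induction j with
  | zero => exact hv
  | succ j ih =>
    rw [Function.iterate_succ_apply']
    exact phi_ne hne ih

/-- The points of a cycle. -/
theorem cycle (hF : F.IsHomogeneous d) (hG : G.IsHomogeneous d) {c : Fin 2 → k} {n : ℕ}
    (hn : 1 ≤ n) {t : k} (ht : t ≠ 0) (hc : (phi F G)^[n] c = t • c) (j : ℕ) :
    ∃ r < n, ∃ u : k, u ≠ 0 ∧ (phi F G)^[j] c = u • (phi F G)^[r] c := by
  induction j with
  | zero => exact ⟨0, hn, 1, one_ne_zero, (one_smul _ _).symm⟩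
  | succ j ih =>
    obtain ⟨r, hr, u, hu, h⟩ := ih
    rw [Function.iterate_succ_apply', h, phi_smul hF hG, ← Function.iterate_succ_apply' (phi F G)]
    rcases Nat.lt_or_ge (r + 1) n with h1 | h1
    · exact ⟨r + 1, h1, u ^ d, pow_ne_zero _ hu, rfl⟩
    · have h2 : r + 1 = n := by omega
      refine ⟨0, hn, u ^ d * t, mul_ne_zero (pow_ne_zero _ hu) ht, ?_⟩
      rw [show r.succ = n from h2, hc, smul_smul]
      rfl

theorem jac_hom (hF : F.IsHomogeneous d) (hG : G.IsHomogeneous d) :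
    (jac F G).IsHomogeneous ((d - 1) + (d - 1)) :=
  (hF.pderiv.mul hG.pderiv).sub (hF.pderiv.mul hG.pderiv)

/-- The chart of a map with a periodic critical point. -/
theorem exists_chart [IsAlgClosed k] [CharZero k] (hd : 2 ≤ d) (hF : F.IsHomogeneous d)
    (hG : G.IsHomogeneous d) (hne : ∀ v : Fin 2 → k, eval v F = 0 → eval v G = 0 → v = 0)
    {c : Fin 2 → k} (hc0 : c ≠ 0) (hjac : eval c (jac F G) = 0) {n : ℕ} (hn : 1 ≤ n) {t : k}
    (ht : t ≠ 0) (hc : (phi F G)^[n] c = t • c) :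
    ∃ (s : k) (D : Chart k), D.A = den s F G ∧ D.B = num s F G := by
  obtain ⟨s, hs, hw⟩ := exists_s hd hF hG hne (fun j : Fin n => (phi F G)^[j] c)
    (fun j => iter_ne hne hc0 _)
  have hdn : ∀ j, dn s ((phi F G)^[j] c) ≠ 0 := by
    intro j
    obtain ⟨r, hr, u, hu, h⟩ := cycle hF hG hn ht hc j
    rw [h, dn_smul]
    exact mul_ne_zero hu (hw ⟨r, hr⟩)
  let C : ℕ → k := fun j => (phi F G)^[j] c 0 / dn s ((phi F G)^[j] c)
  have hC : ∀ j, (phi F G)^[j] c = dn s ((phi F G)^[j] c) • pt s (C j) := fun j =>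
    eq_smul_pt (hdn j)
  obtain ⟨z, hz1, hz2, hz3⟩ := exists_fix (A := den s F G) (B := num s F G)
    (le_trans one_le_two hd) (den_deg s hF hG) (res_coeff s hF).2 hs
    (fun z h => no_common hne h)
  have hstep : ∀ j, (phi F G)^[j + 1] c =
      dn s ((phi F G)^[j] c) ^ d • phi F G (pt s (C j)) := by
    intro j
    rw [Function.iterate_succ_apply', ← phi_smul hF hG, ← hC]
  have hAC : ∀ j, (den s F G).eval (C j) ≠ 0 := by
    intro j h
    apply hdn (j + 1)
    rw [hstep, dn_smul, dn_phi_pt, h, mul_zero]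
  refine ⟨s, ⟨den s F G, num s F G, n, C, z, hn, ?_, hAC, ?_, ?_, hz1, hz2, hz3⟩, rfl, rfl⟩
  · intro j
    show (phi F G)^[j + n] c 0 / dn s ((phi F G)^[j + n] c) =
      (phi F G)^[j] c 0 / dn s ((phi F G)^[j] c)
    rw [Function.iterate_add_apply, hc, iter_smul hF hG, dn_smul, Pi.smul_apply, smul_eq_mul,
      mul_div_mul_left _ _ (pow_ne_zero _ ht)]
  · intro j
    show (num s F G).eval (C j) / (den s F G).eval (C j) =
      (phi F G)^[j + 1] c 0 / dn s ((phi F G)^[j + 1] c)
    rw [hstep, dn_smul, dn_phi_pt, Pi.smul_apply, smul_eq_mul, phi_pt_zero,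
      mul_div_mul_left _ _ (pow_ne_zero _ (hdn j))]
  · have h1 := hC 0
    have h2 : (phi F G)^[0] c = c := rfl
    rw [h2] at h1
    rw [h1, eval_smul' (jac_hom hF hG)] at hjac
    have h3 := hdn 0
    rw [h2] at h3
    have h4 := (mul_eq_zero.1 hjac).resolve_left (pow_ne_zero _ h3)
    have h5 := wr_chart s (C 0) hF hG
    rw [show eval ![C 0, 1 + s * C 0] (jac F G) = 0 from h4] at h5
    exact (mul_eq_zero.1 h5).resolve_left (Nat.cast_ne_zero.2 (by omega))

/-- Orbits in the chart. -/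
theorem orbit_chart (hF : F.IsHomogeneous d) (hG : G.IsHomogeneous d) {s : k} {D : Chart k}
    (hA : D.A = den s F G) (hB : D.B = num s F G) {z : k}
    (hz : ∀ n, D.A.eval (D.f^[n] z) ≠ 0) (n : ℕ) :
    ∃ u : k, u ≠ 0 ∧ (phi F G)^[n] (pt s z) = u • pt s (D.f^[n] z) := by
  induction n with
  | zero => exact ⟨1, one_ne_zero, (one_smul _ _).symm⟩
  | succ n ih =>
    obtain ⟨u, hu, h⟩ := ih
    have h1 := hz n
    rw [hA] at h1
    refine ⟨u ^ d * (den s F G).eval (D.f^[n] z), mul_ne_zero (pow_ne_zero _ hu) h1, ?_⟩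
    rw [Function.iterate_succ_apply', h, phi_smul hF hG, phi_pt h1, smul_smul,
      Function.iterate_succ_apply']
    unfold Chart.f
    rw [hA, hB]

end

/-- **Products of rational maps with periodic critical points have Zariski dense orbits.** -/
theorem main (N : ℕ) (d : Fin N → ℕ) (F G : Fin N → MvPolynomial (Fin 2) Qb)
    (hd : ∀ i, 2 ≤ d i)
    (hFG : ∀ i, (F i).IsHomogeneous (d i) ∧ (G i).IsHomogeneous (d i))
    (hne : ∀ i, ∀ v : Fin 2 → Qb, eval v (F i) = 0 → eval v (G i) = 0 → v = 0)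
    (hc : ∀ i, ∃ c : Fin 2 → Qb, c ≠ 0 ∧ eval c (jac (F i) (G i)) = 0 ∧
      ∃ n : ℕ, 1 ≤ n ∧ ∃ t : Qb, t ≠ 0 ∧ (phi (F i) (G i))^[n] c = t • c) :
    ∃ α : Fin N → Fin 2 → Qb, (∀ i, α i ≠ 0) ∧
      ∀ P : MvPolynomial (Fin N × Fin 2) Qb,
        (∀ (n : ℕ) (t : Fin N → Qb), (∀ i, t i ≠ 0) →
          eval (fun p : Fin N × Fin 2 => t p.1 * (phi (F p.1) (G p.1))^[n] (α p.1) p.2) P = 0) →
        P = 0 := by
  classical
  choose c hc0 hjac n hn t ht hcyc using hc
  choose s D hA hB using fun i => exists_chart (hd i) (hFG i).1 (hFG i).2 (hne i) (hc0 i)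
    (hjac i) (hn i) (ht i) (hcyc i)
  obtain ⟨z, hz, hdense⟩ := affine D
  refine ⟨fun i => pt (s i) (z i), fun i => pt_ne _ _, fun P hP => ?_⟩
  choose u hu horb using fun i n => orbit_chart (hFG i).1 (hFG i).2 (hA i) (hB i) (hz i) n
  -- all points in the chart
  have key : ∀ t : Fin N → Qb, (∀ i, t i ≠ 0) → ∀ y : Fin N → Qb,
      eval (fun p : Fin N × Fin 2 => t p.1 * pt (s p.1) (y p.1) p.2) P = 0 := by
    intro t ht y
    let R : MvPolynomial (Fin N) Qb := bind₁ (fun p : Fin N × Fin 2 =>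
      C (t p.1) * (![X p.1, 1 + C (s p.1) * X p.1] : Fin 2 → MvPolynomial (Fin N) Qb) p.2) P
    have hR : ∀ y : Fin N → Qb, eval y R =
        eval (fun p : Fin N × Fin 2 => t p.1 * pt (s p.1) (y p.1) p.2) P := by
      intro y
      show eval y (bind₁ _ P) = _
      rw [← MvPolynomial.coe_aeval_eq_eval, RingHom.coe_coe, aeval_bind₁,
        ← MvPolynomial.coe_aeval_eq_eval, RingHom.coe_coe]
      congr 2
      funext p
      obtain ⟨i, j⟩ := p
      fin_cases j
      · simp [pt]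
      · simp [pt]
    have hR0 : R = 0 := by
      refine hdense R fun n => ?_
      rw [hR]
      have h1 := hP n (fun i => t i / u i n) (fun i => div_ne_zero (ht i) (hu i n))
      refine Eq.trans ?_ h1
      congr 2
      funext p
      rw [horb, Pi.smul_apply, smul_eq_mul, ← mul_assoc, div_mul_cancel₀ _ (hu _ _)]
    rw [← hR, hR0, map_zero]
  -- the product with the denominators vanishes everywhere
  let E : MvPolynomial (Fin N × Fin 2) Qb := ∏ i, (X (i, 1) - C (s i) * X (i, 0))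
  have hE : E ≠ 0 := by
    refine Finset.prod_ne_zero_iff.2 fun i _ h => ?_
    have h1 := congrArg (eval fun p : Fin N × Fin 2 => if p.2 = 1 then (1 : Qb) else 0) h
    simp at h1
  have hPE : P * E = 0 := by
    refine MvPolynomial.funext fun x => ?_
    rw [map_mul, map_zero]
    by_cases h : ∀ i, dn (s i) (fun j => x (i, j)) ≠ 0
    · have h1 := key (fun i => dn (s i) (fun j => x (i, j))) h
        (fun i => x (i, 0) / dn (s i) (fun j => x (i, j)))
      have h2 : (fun p : Fin N × Fin 2 => dn (s p.1) (fun j => x (p.1, j)) *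
          pt (s p.1) (x (p.1, 0) / dn (s p.1) (fun j => x (p.1, j))) p.2) = x := by
        funext p
        exact (congrFun (eq_smul_pt (h p.1)) p.2).symm
      rw [h2] at h1
      rw [h1, zero_mul]
    · push Not at h
      obtain ⟨i, hi⟩ := h
      have h1 : eval x E = 0 := by
        show eval x (∏ i, (X (i, 1) - C (s i) * X (i, 0))) = 0
        rw [map_prod]
        refine Finset.prod_eq_zero (Finset.mem_univ i) ?_
        rw [map_sub, map_mul, eval_X, eval_X, eval_C]
        exact hi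
      rw [h1, mul_zero]
  exact (mul_eq_zero.1 hPE).resolve_right hE

end Pool.Agent.TH19.ZD
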