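import Pool.Agent.TH19.ZD.V

/-!
The places of the field of algebraic numbers over the prime numbers.
-/

set_option autoImplicit false

open scoped NNReal

namespace Pool.Agent.TH19.ZD

/-- The field of algebraic numbers. -/
abbrev Qb := AlgebraicClosure ℚ

instance algQb : Algebra.IsAlgebraic ℚ Qb := by
  refine ⟨fun x => ?_⟩
  obtain ⟨q, h0, h1⟩ := (AlgebraicClosure.isAlgebraic ℚ).isAlgebraic x
  refine ⟨q, h0, ?_⟩
  rw [Polynomial.aeval_def] at h1
  rw [Polynomial.aeval_def, Subsingleton.elim (algebraMap ℚ Qb)]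
  exact h1

/-- An embedding of the algebraic numbers into the algebraic closure of the `p`-adic numbers. -/
noncomputable def emb (p : ℕ) [Fact p.Prime] : Qb →+* PadicAlgCl p :=
  (IsAlgClosed.lift (R := ℚ) (M := PadicAlgCl p) (S := Qb)).toRingHom

/-- A place of the algebraic numbers over `p`. -/
noncomputable def plc (p : ℕ) [Fact p.Prime] : Valuation Qb ℝ≥0 :=
  (Valued.v : Valuation (PadicAlgCl p) ℝ≥0).comap (emb p)

theorem plc_apply (p : ℕ) [Fact p.Prime] (x : Qb) : plc p x = ‖emb p x‖₊ := rfl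

theorem plc_p (p : ℕ) [hp : Fact p.Prime] : plc p (p : Qb) < 1 := by
  have h : plc p (p : Qb) = Valued.v ((p : ℕ) : PadicAlgCl p) := by
    show Valued.v (emb p (p : Qb)) = _
    rw [map_natCast]
  rw [h, PadicAlgCl.valuation_p, one_div]
  exact inv_lt_one_of_one_lt₀ (by exact_mod_cast hp.1.one_lt)

theorem plc_int_le (p : ℕ) [Fact p.Prime] (m : ℤ) : plc p (m : Qb) ≤ 1 :=
  map_le_one_of_isIntegral (isIntegral_algebraMap (x := m))

theorem plc_nat (p : ℕ) [hp : Fact p.Prime] {m : ℕ} (h : ¬ p ∣ m) : plc p (m : Qb) = 1 := by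
  have hc : IsCoprime (p : ℤ) (m : ℤ) :=
    Nat.isCoprime_iff_coprime.2 ((Nat.Prime.coprime_iff_not_dvd hp.1).2 h)
  obtain ⟨a, b, hab⟩ := hc
  have h1 : ((a : ℤ) : Qb) * (p : Qb) + (b : Qb) * (m : Qb) = 1 := by exact_mod_cast congrArg (Int.cast (R := Qb)) hab
  have h2 : plc p (m : Qb) ≤ 1 := by exact_mod_cast plc_int_le p m
  refine le_antisymm h2 ?_
  by_contra hlt
  rw [not_le] at hlt
  have h3 : plc p (((a : ℤ) : Qb) * (p : Qb) + (b : Qb) * (m : Qb)) < 1 := by
    refine ((plc p).map_add _ _).trans_lt (max_lt ?_ ?_)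
    · rw [map_mul]
      exact (mul_le_of_le_one_left zero_le (plc_int_le p a)).trans_lt (plc_p p)
    · rw [map_mul]
      exact (mul_le_of_le_one_left zero_le (plc_int_le p b)).trans_lt hlt
  rw [h1, map_one] at h3
  exact lt_irrefl _ h3

/-- Sequences of integral elements of a number field come back. -/
theorem recur (p : ℕ) [hp : Fact p.Prime] (K : IntermediateField ℚ Qb) [FiniteDimensional ℚ K]
    {r : ℕ} (x : ℕ → Fin r → Qb) (hx : ∀ n j, x n j ∈ K) (hb : ∀ n j, plc p (x n j) ≤ 1)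
    {ε : ℝ≥0} (hε : 0 < ε) (N : ℕ) :
    ∃ a b : ℕ, a + N ≤ b ∧ ∀ j, plc p (x b j - x a j) < ε := by
  let b := Module.finBasis ℚ K
  let W : Submodule ℚ_[p] (PadicAlgCl p) :=
    Submodule.span ℚ_[p] (Set.range fun i => emb p (b i : Qb))
  have : FiniteDimensional ℚ_[p] W := FiniteDimensional.span_of_finite _ (Set.finite_range _)
  have : ProperSpace W := FiniteDimensional.proper ℚ_[p] W
  have hW : ∀ y ∈ K, emb p y ∈ W := by
    intro y hy
    have h1 := b.sum_repr ⟨y, hy⟩
    have h2 : y = ∑ i, ((b.repr ⟨y, hy⟩ i : ℚ) : Qb) * (b i : Qb) := by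
      have h3 := congrArg (algebraMap K Qb) h1
      rw [map_sum] at h3
      refine h3.symm.trans (Finset.sum_congr rfl fun i _ => ?_)
      rw [Algebra.smul_def, map_mul, eq_ratCast, map_ratCast]
      rfl
    rw [h2, map_sum]
    refine Submodule.sum_mem _ fun i _ => ?_
    rw [map_mul, map_ratCast]
    have h4 : ((b.repr ⟨y, hy⟩ i : ℚ) : PadicAlgCl p) * emb p (b i : Qb) =
        ((b.repr ⟨y, hy⟩ i : ℚ) : ℚ_[p]) • emb p (b i : Qb) := by
      rw [Algebra.smul_def, map_ratCast]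
    rw [h4]
    exact W.smul_mem _ (Submodule.subset_span ⟨i, rfl⟩)
  let y : ℕ → Fin r → W := fun n j => ⟨emb p (x n j), hW _ (hx n j)⟩
  have hy : ∀ n, y n ∈ Metric.closedBall (0 : Fin r → W) 1 := by
    intro n
    rw [mem_closedBall_zero_iff, pi_norm_le_iff_of_nonneg zero_le_one]
    intro j
    have h1 := hb n j
    rw [plc_apply] at h1
    exact_mod_cast h1
  obtain ⟨l, -, φ, hφ, hl⟩ := tendsto_subseq_of_bounded Metric.isBounded_closedBall hy
  have hc := hl.cauchySeq
  rw [Metric.cauchySeq_iff] at hc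
  obtain ⟨M, hM⟩ := hc ε (by exact_mod_cast hε)
  refine ⟨φ M, φ (M + N), ?_, fun j => ?_⟩
  · have := hφ.add_le_nat N M
    rw [add_comm M N]
    omega
  · have h1 := hM (M + N) (by omega) M le_rfl
    have h2 : dist (y (φ (M + N)) j) (y (φ M) j) < ε := (dist_le_pi_dist _ _ j).trans_lt h1
    rw [plc_apply, map_sub]
    have h3 : dist (y (φ (M + N)) j) (y (φ M) j) =
        ‖emb p (x (φ (M + N)) j) - emb p (x (φ M) j)‖ := by
      rw [dist_eq_norm]
      rfl
    rw [h3] at h2
    exact_mod_cast h2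

/-- The set `T` is integral outside `m`. -/
def GoodAt (m : ℕ) (T : Set Qb) : Prop :=
  ∀ v : Valuation Qb ℝ≥0, v (m : Qb) = 1 → ∀ x ∈ T, v x ≤ 1

theorem good_elem (x : Qb) : ∃ m : ℕ, m ≠ 0 ∧ GoodAt m {x} := by
  obtain ⟨m, hm, h⟩ := IsAlgebraic.exists_integral_multiple (R := ℤ)
    ((IsFractionRing.isAlgebraic_iff ℤ ℚ Qb).2 (Algebra.IsAlgebraic.isAlgebraic x))
  refine ⟨m.natAbs, Int.natAbs_ne_zero.2 hm, ?_⟩
  intro v hv z hz
  rw [Set.mem_singleton_iff] at hz
  subst hz
  have h1 : v (m • z) ≤ 1 := map_le_one_of_isIntegral h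
  have h2 : v ((m : ℤ) : Qb) = 1 := by
    rcases Int.natAbs_eq m with h' | h'
    · have e := congrArg (Int.cast (R := Qb)) h'
      rw [Int.cast_natCast] at e
      rw [e]
      exact hv
    · have e := congrArg (Int.cast (R := Qb)) h'
      rw [Int.cast_neg, Int.cast_natCast] at e
      rw [e, Valuation.map_neg]
      exact hv
  rwa [zsmul_eq_mul, map_mul, h2, one_mul] at h1

theorem good_set {T : Set Qb} (hT : T.Finite) : ∃ m : ℕ, m ≠ 0 ∧ GoodAt m T := by
  induction T, hT using Set.Finite.induction_on with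
  | empty => exact ⟨1, one_ne_zero, fun v _ x hx => absurd hx (Set.notMem_empty x)⟩
  | @insert a s ha hs ih =>
    obtain ⟨m, hm, h⟩ := ih
    obtain ⟨m', hm', h'⟩ := good_elem a
    refine ⟨m * m', mul_ne_zero hm hm', ?_⟩
    intro v hv x hx
    rw [Nat.cast_mul, map_mul] at hv
    have g1 : v (m : Qb) ≤ 1 := by
      have := map_le_one_of_isIntegral (v := v) (isIntegral_algebraMap (R := ℤ) (A := Qb) (x := m))
      simpa using this
    have g2 : v (m' : Qb) ≤ 1 := by
      have := map_le_one_of_isIntegral (v := v) (isIntegral_algebraMap (R := ℤ) (A := Qb) (x := m'))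
      simpa using this
    have e1 : v (m : Qb) = 1 := by
      refine le_antisymm g1 ?_
      rw [← hv]
      exact mul_le_of_le_one_right zero_le g2
    have e2 : v (m' : Qb) = 1 := by
      rwa [e1, one_mul] at hv
    rcases Set.mem_insert_iff.1 hx with rfl | hx
    · exact h' v e2 x rfl
    · exact h v e1 x hx

end Pool.Agent.TH19.ZD
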