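import Mathlib

/-!
Elementary estimates for a valuation with values in the nonnegative real numbers.
-/

set_option autoImplicit false

open scoped NNReal

namespace Pool.Agent.TH19.ZD

variable {k : Type*} [Field k] (v : Valuation k ℝ≥0)

/-- The coefficients of `f` are integral. -/
def IntPol (f : Polynomial k) : Prop := ∀ n, v (f.coeff n) ≤ 1

variable {v}

theorem IntPol.lift {f : Polynomial k} (hf : IntPol v f) :
    ∃ g : Polynomial v.integer, g.map v.integer.subtype = f := by
  have h : (↑f.coeffs : Set k) ⊆ v.integer := by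
    intro x hx
    rw [Finset.mem_coe, Polynomial.mem_coeffs_iff] at hx
    obtain ⟨n, -, rfl⟩ := hx
    exact hf n
  exact ⟨f.toSubring v.integer h, Polynomial.map_toSubring _ _ _⟩

theorem map_eval_le {f : Polynomial k} (hf : IntPol v f) {x : k} (hx : v x ≤ 1) :
    v (f.eval x) ≤ 1 := by
  obtain ⟨g, rfl⟩ := hf.lift
  have h : (g.map v.integer.subtype).eval x = v.integer.subtype (g.eval ⟨x, hx⟩) := by
    rw [← Polynomial.eval₂_eq_eval_map]
    exact Polynomial.eval₂_hom v.integer.subtype (⟨x, hx⟩ : v.integer)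
  rw [h]
  exact (g.eval ⟨x, hx⟩).2

theorem IntPol.derivative {f : Polynomial k} (hf : IntPol v f) : IntPol v f.derivative := by
  obtain ⟨g, rfl⟩ := hf.lift
  intro n
  rw [Polynomial.derivative_map, Polynomial.coeff_map]
  exact (g.derivative.coeff n).2

theorem IntPol.mul {f g : Polynomial k} (hf : IntPol v f) (hg : IntPol v g) :
    IntPol v (f * g) := by
  obtain ⟨f, rfl⟩ := hf.lift
  obtain ⟨g, rfl⟩ := hg.lift
  intro n
  rw [← Polynomial.map_mul, Polynomial.coeff_map]
  exact ((f * g).coeff n).2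

theorem IntPol.sub {f g : Polynomial k} (hf : IntPol v f) (hg : IntPol v g) :
    IntPol v (f - g) := by
  obtain ⟨f, rfl⟩ := hf.lift
  obtain ⟨g, rfl⟩ := hg.lift
  intro n
  rw [← Polynomial.map_sub, Polynomial.coeff_map]
  exact ((f - g).coeff n).2

theorem taylor {f : Polynomial k} (hf : IntPol v f) {x h : k} (hx : v x ≤ 1) (hh : v h ≤ 1) :
    ∃ q : k, v q ≤ 1 ∧ f.eval (x + h) = f.eval x + f.derivative.eval x * h + q * h ^ 2 := by
  obtain ⟨g, rfl⟩ := hf.lift
  have key : ∀ (g : Polynomial v.integer) (x : v.integer),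
      (g.map v.integer.subtype).eval (x : k) = ((g.eval x : v.integer) : k) := by
    intro g x
    rw [← Polynomial.eval₂_eq_eval_map]
    exact Polynomial.eval₂_hom v.integer.subtype x
  obtain ⟨q, hq⟩ := Polynomial.binomExpansion g (⟨x, hx⟩ : v.integer) ⟨h, hh⟩
  refine ⟨q, q.2, ?_⟩
  have h1 := key g (⟨x, hx⟩ + ⟨h, hh⟩)
  have h2 := key g ⟨x, hx⟩
  have h3 := key g.derivative ⟨x, hx⟩
  rw [Polynomial.derivative_map]
  have e1 : (((⟨x, hx⟩ + ⟨h, hh⟩ : v.integer)) : k) = x + h := rfl
  rw [e1] at h1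
  rw [h1, hq, show (g.map v.integer.subtype).eval x = _ from h2,
    show (g.derivative.map v.integer.subtype).eval x = _ from h3]
  rfl

/-- The Wronskian of numerator and denominator. -/
noncomputable def wr (A B : Polynomial k) : Polynomial k :=
  B.derivative * A - B * A.derivative

theorem wr_int {A B : Polynomial k} (hA : IntPol v A) (hB : IntPol v B) : IntPol v (wr A B) :=
  (hB.derivative.mul hA).sub (hB.mul hA.derivative)

theorem map_eq_one_of_near {f : Polynomial k} (hf : IntPol v f) {c z : k} (hc : v c ≤ 1)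
    (hfc : v (f.eval c) = 1) (hz : v (z - c) < 1) : v (f.eval z) = 1 := by
  obtain ⟨q, hq, h⟩ := taylor hf hc hz.le
  rw [add_sub_cancel] at h
  have h1 : v (f.derivative.eval c * (z - c) + q * (z - c) ^ 2) < 1 := by
    refine (v.map_add _ _).trans_lt (max_lt ?_ ?_)
    · rw [map_mul]
      exact (mul_le_of_le_one_left zero_le (map_eval_le hf.derivative hc)).trans_lt hz
    · rw [map_mul, map_pow]
      exact (mul_le_of_le_one_left zero_le hq).trans_lt
        (pow_lt_one₀ zero_le hz two_ne_zero)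
  rw [h, add_assoc, v.map_add_eq_of_lt_left, hfc]
  rw [hfc]
  exact h1

theorem step {A B : Polynomial k} (hA : IntPol v A) (hB : IntPol v B) {c z : k} (hc : v c ≤ 1)
    (hAc : v (A.eval c) = 1) (hz : v (z - c) < 1) :
    ∃ q : k, v q ≤ 1 ∧ v (B.eval z / A.eval z - B.eval c / A.eval c) =
      v ((z - c) * ((wr A B).eval c + (z - c) * q)) := by
  have hAz := map_eq_one_of_near hA hc hAc hz
  obtain ⟨q1, hq1, h1⟩ := taylor hA hc hz.le
  obtain ⟨q2, hq2, h2⟩ := taylor hB hc hz.le
  rw [add_sub_cancel] at h1 h2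
  have hA0 : A.eval c ≠ 0 := by
    intro h
    rw [h, map_zero] at hAc
    exact zero_ne_one hAc
  have hA1 : A.eval z ≠ 0 := by
    intro h
    rw [h, map_zero] at hAz
    exact zero_ne_one hAz
  refine ⟨q2 * A.eval c - q1 * B.eval c, ?_, ?_⟩
  · refine (v.map_sub _ _).trans (max_le ?_ ?_)
    · rw [map_mul, hAc, mul_one]
      exact hq2
    · rw [map_mul]
      exact mul_le_one₀ hq1 zero_le (map_eval_le hB hc)
  · have e : B.eval z / A.eval z - B.eval c / A.eval c =
        ((z - c) * ((wr A B).eval c + (z - c) * (q2 * A.eval c - q1 * B.eval c))) /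
          (A.eval c * A.eval z) := by
      rw [div_sub_div _ _ hA1 hA0, mul_comm (A.eval z) (A.eval c)]
      congr 1
      rw [h1, h2]
      unfold wr
      simp only [Polynomial.eval_sub, Polynomial.eval_mul]
      ring
    rw [e, map_div₀, map_mul v (A.eval c), hAc, hAz, mul_one, div_one]

theorem step_le {A B : Polynomial k} (hA : IntPol v A) (hB : IntPol v B) {c z : k} (hc : v c ≤ 1)
    (hAc : v (A.eval c) = 1) (hz : v (z - c) < 1) :
    v (B.eval z / A.eval z - B.eval c / A.eval c) ≤ v (z - c) := by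
  obtain ⟨q, hq, h⟩ := step hA hB hc hAc hz
  rw [h, map_mul]
  refine mul_le_of_le_one_right zero_le ((v.map_add _ _).trans (max_le ?_ ?_))
  · exact map_eval_le (wr_int hA hB) hc
  · rw [map_mul]
    exact mul_le_one₀ hz.le zero_le hq

theorem step_sq {A B : Polynomial k} (hA : IntPol v A) (hB : IntPol v B) {c z : k} (hc : v c ≤ 1)
    (hAc : v (A.eval c) = 1) (hz : v (z - c) < 1) (hw : (wr A B).eval c = 0) :
    v (B.eval z / A.eval z - B.eval c / A.eval c) ≤ v (z - c) ^ 2 := by
  obtain ⟨q, hq, h⟩ := step hA hB hc hAc hz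
  rw [h, hw, zero_add, map_mul, map_mul, sq, ← mul_assoc]
  exact mul_le_of_le_one_right zero_le hq

theorem step_eq {A B : Polynomial k} (hA : IntPol v A) (hB : IntPol v B) {c z : k} (hc : v c ≤ 1)
    (hAc : v (A.eval c) = 1) (hz : v (z - c) < 1) (hw : v ((wr A B).eval c) = 1) :
    v (B.eval z / A.eval z - B.eval c / A.eval c) = v (z - c) := by
  obtain ⟨q, hq, h⟩ := step hA hB hc hAc hz
  rw [h, map_mul, v.map_add_eq_of_lt_left, hw, mul_one]
  rw [hw, map_mul]
  exact (mul_le_of_le_one_right zero_le hq).trans_lt hz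

/-- Integral elements have integral values. -/
theorem map_le_one_of_isIntegral {x : k} (hx : IsIntegral ℤ x) : v x ≤ 1 := by
  have h : IsIntegral v.integer x := hx.tower_top
  exact (Valuation.integer.integers v).mem_of_integral h

end Pool.Agent.TH19.ZD
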